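import Pool.Agent.W308.PLN.Cert

set_option autoImplicit false

/-!
Numerical certificate for the state with eigenvalues `1 / k`: the real inequalities (helper308).
-/

open Finset

namespace Pool.Agent.W308.PLN

open Pool.Agent.W9.PL

/-- the unnormalised sequence -/
noncomputable def T (d : ℕ) : ℝ := if d = 0 then 128 / 25 else 1 / (d : ℝ)

lemma T_pos (d : ℕ) : 0 < T d := by
  unfold T
  split_ifs with h
  · norm_num
  · have : (0 : ℝ) < d := by exact_mod_cast Nat.pos_of_ne_zero h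
    positivity

lemma T_succ (d : ℕ) : T (d + 1) = 1 / ((d : ℝ) + 1) := by
  unfold T
  rw [if_neg (by omega)]
  push_cast
  rfl

lemma wn_le (d : ℕ) : (wn d : ℝ) ≤ 10 ^ 9 * T d := by
  cases d with
  | zero => unfold wn T; norm_num
  | succ d =>
    rw [T_succ]
    have h := Nat.cast_div_le (α := ℝ) (m := 1000000000) (n := d + 1)
    simp only [wn]
    refine h.trans (le_of_eq ?_)
    push_cast
    ring

lemma le_wn (d : ℕ) : 10 ^ 9 * T d ≤ (wn d : ℝ) + 1 := by
  cases d with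
  | zero => unfold wn T; norm_num
  | succ d =>
    rw [T_succ]
    simp only [wn]
    have h1 := Nat.div_add_mod 1000000000 (d + 1)
    have h2 := Nat.mod_lt 1000000000 (Nat.succ_pos d)
    have h3 : 1000000000 ≤ (d + 1) * (1000000000 / (d + 1) + 1) := by
      calc 1000000000 = (d + 1) * (1000000000 / (d + 1)) + 1000000000 % (d + 1) := h1.symm
        _ ≤ (d + 1) * (1000000000 / (d + 1)) + (d + 1) := by
          exact Nat.add_le_add_left h2.le _
        _ = _ := by ring
    have h4 : (1000000000 : ℝ) ≤ ((d : ℝ) + 1) * (((1000000000 / (d + 1) : ℕ) : ℝ) + 1) := by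
      exact_mod_cast h3
    have hd : (0 : ℝ) < (d : ℝ) + 1 := by positivity
    rw [mul_one_div, div_le_iff₀ hd]
    linarith

/-- reindexing -/
lemma reidx (K j : ℕ) (hj : j ≤ 2 * K) (g : ℤ → ℝ) :
    ∑ k ∈ Icc (-(K : ℤ)) ((K : ℤ) - j), g k = ∑ i ∈ range (2 * K + 1 - j), g ((i : ℤ) - K) := by
  refine Finset.sum_nbij' (fun k => (k + K).toNat) (fun i => (i : ℤ) - K) ?_ ?_ ?_ ?_ ?_
  · intro k hk
    rw [mem_Icc] at hk
    rw [mem_range]
    omega
  · intro i hi
    rw [mem_range] at hi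
    rw [mem_Icc]
    omega
  · intro k hk
    rw [mem_Icc] at hk
    omega
  · intro i hi
    simp
  · intro k hk
    rw [mem_Icc] at hk
    congr 1
    omega

lemma abs_dd (i : ℕ) : ((i : ℤ) - (150 : ℕ)).natAbs = dd i := by unfold dd; omega

lemma abs_dd' (i j : ℕ) : ((i : ℤ) - (150 : ℕ) + j).natAbs = dd (i + j) := by unfold dd; omega

/-- the norm -/
noncomputable def nn : ℝ := ∑ k ∈ Icc (-((150 : ℕ) : ℤ)) ((150 : ℕ) : ℤ), T k.natAbs ^ 2

lemma full (g : ℕ → ℝ) : ∑ k ∈ Icc (-((150 : ℕ) : ℤ)) ((150 : ℕ) : ℤ), g k.natAbs =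
    ∑ i ∈ range 301, g (dd i) := by
  have h := reidx 150 0 (by norm_num) (fun k => g k.natAbs)
  simp only [Nat.cast_zero, sub_zero] at h
  rw [h]
  refine Finset.sum_congr rfl fun i _ => ?_
  rw [abs_dd]

lemma sq1_eq (n : ℕ) : (sq1 n : ℝ) = ∑ i ∈ range n, ((wn (dd i) : ℝ) + 1) ^ 2 := by
  induction n with
  | zero => simp [sq1]
  | succ n ih => rw [Finset.sum_range_succ, sq1]; push_cast; rw [ih]; ring

lemma nn_pos : 0 < nn := by
  unfold nn
  refine Finset.sum_pos (fun k _ => pow_pos (T_pos _) 2) ⟨0, ?_⟩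
  rw [mem_Icc]; norm_num

lemma nn_le : nn ≤ 29.49098 := by
  have h1 : 10 ^ 18 * nn ≤ (sq1 301 : ℝ) := by
    unfold nn
    rw [full (fun d => T d ^ 2), sq1_eq, Finset.mul_sum]
    refine Finset.sum_le_sum fun i _ => ?_
    have h2 := le_wn (dd i)
    have h3 := T_pos (dd i)
    calc 10 ^ 18 * T (dd i) ^ 2 = (10 ^ 9 * T (dd i)) ^ 2 := by ring
      _ ≤ _ := pow_le_pow_left₀ (by positivity) h2 2
  have h2 : (sq1 301 : ℝ) ≤ 29490980000000000000 := by exact_mod_cast sq1_le
  linarith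

/-- correlations -/
noncomputable def Cc (j : ℕ) : ℝ :=
  ∑ k ∈ Icc (-((150 : ℕ) : ℤ)) (((150 : ℕ) : ℤ) - j), T k.natAbs * T (k + j).natAbs

lemma inner_le (j n : ℕ) : (inner j n : ℝ) ≤ 10 ^ 18 * ∑ i ∈ range n, T (dd i) * T (dd (i + j)) := by
  induction n with
  | zero => simp [inner]
  | succ n ih =>
    rw [Finset.sum_range_succ, inner, mul_add]
    push_cast
    have h1 := wn_le (dd n)
    have h2 := wn_le (dd (n + j))
    have h3 : (wn (dd n) : ℝ) * wn (dd (n + j)) ≤ 10 ^ 9 * T (dd n) * (10 ^ 9 * T (dd (n + j))) :=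
      mul_le_mul h1 h2 (by positivity) (by have := T_pos (dd n); positivity)
    calc (inner j n : ℝ) + wn (dd n) * wn (dd (n + j)) ≤
        10 ^ 18 * ∑ i ∈ range n, T (dd i) * T (dd (i + j)) +
          10 ^ 9 * T (dd n) * (10 ^ 9 * T (dd (n + j))) := add_le_add ih h3
      _ = _ := by ring

lemma Cc_ge (j : ℕ) (hj : j ≤ 300) : (inner j (301 - j) : ℝ) ≤ 10 ^ 18 * Cc j := by
  refine (inner_le j (301 - j)).trans (le_of_eq ?_)
  unfold Cc
  rw [reidx 150 j (by omega)]
  congr 1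
  refine Finset.sum_congr rfl fun i _ => ?_
  rw [abs_dd, abs_dd']

lemma outer_eq (m : ℕ) : (outer m : ℝ) = ∑ j ∈ Icc 1 m, ((inner j (301 - j) / j : ℕ) : ℝ) := by
  induction m with
  | zero => simp [outer]
  | succ m ih => rw [Finset.sum_Icc_succ_top (by omega), outer]; push_cast; rw [ih]

lemma C_ge : 23.7348 ≤ ∑ j ∈ Icc 1 300, Cc j / j := by
  have h1 : (outer 300 : ℝ) ≤ 10 ^ 18 * ∑ j ∈ Icc 1 300, Cc j / j := by
    rw [outer_eq, Finset.mul_sum]
    refine Finset.sum_le_sum fun j hj => ?_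
    rw [mem_Icc] at hj
    have h2 := Cc_ge j hj.2
    have hj0 : (0 : ℝ) < j := by exact_mod_cast hj.1
    refine (Nat.cast_div_le (α := ℝ) (m := inner j (301 - j)) (n := j)).trans ?_
    rw [← mul_div_assoc]
    exact div_le_div_of_nonneg_right h2 hj0.le
  have h2 : (23734800000000000000 : ℝ) ≤ outer 300 := by exact_mod_cast outer_ge
  linarith

/-! ### logarithms -/

lemma log3_le : Real.log 3 ≤ ((L3 : ℚ) : ℝ) := by
  have h0 : 3 ^ 306 ≤ 2 ^ 485 := by decide +kernel
  have h : (3 : ℝ) ^ 306 ≤ 2 ^ 485 := by exact_mod_cast h0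
  have h1 := Real.log_le_log (by positivity) h
  rw [Real.log_pow, Real.log_pow] at h1
  have h2 := Real.log_two_lt_d9
  unfold L3 L2
  push_cast at h1 ⊢
  linarith

lemma log5_le : Real.log 5 ≤ ((L5 : ℚ) : ℝ) := by
  have h0 : 5 ^ 643 ≤ 2 ^ 1493 := by decide +kernel
  have h : (5 : ℝ) ^ 643 ≤ 2 ^ 1493 := by exact_mod_cast h0
  have h1 := Real.log_le_log (by positivity) h
  rw [Real.log_pow, Real.log_pow] at h1
  have h2 := Real.log_two_lt_d9
  unfold L5 L2
  push_cast at h1 ⊢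
  linarith

lemma log2_le : Real.log 2 ≤ ((L2 : ℚ) : ℝ) := by
  have h2 := Real.log_two_lt_d9
  unfold L2
  push_cast
  linarith

lemma ms_pos (d : ℕ) : (0 : ℝ) < ms d := by
  unfold ms
  push_cast
  positivity

lemma log_ms (d : ℕ) : Real.log (ms d) =
    (nd d).1 * Real.log 2 + (nd d).2.1 * Real.log 3 + (nd d).2.2 * Real.log 5 := by
  unfold ms
  push_cast
  rw [Real.log_mul (by positivity) (by positivity), Real.log_mul (by positivity) (by positivity),
    Real.log_pow, Real.log_pow, Real.log_pow]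

lemma log_le_ub (d : ℕ) (hd : 0 < d) : Real.log d ≤ ((ub d : ℚ) : ℝ) := by
  have hd' : (0 : ℝ) < d := by exact_mod_cast hd
  have h1 := Real.log_le_sub_one_of_pos (div_pos hd' (ms_pos d))
  rw [Real.log_div hd'.ne' (ms_pos d).ne', log_ms] at h1
  have h2 := mul_le_mul_of_nonneg_left log2_le (Nat.cast_nonneg (α := ℝ) (nd d).1)
  have h3 := mul_le_mul_of_nonneg_left log3_le (Nat.cast_nonneg (α := ℝ) (nd d).2.1)
  have h5 := mul_le_mul_of_nonneg_left log5_le (Nat.cast_nonneg (α := ℝ) (nd d).2.2)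
  unfold ub
  push_cast
  linarith

lemma eq_le (d : ℕ) : ((eq d : ℚ) : ℝ) ≤ T d ^ 2 * Real.log (T d ^ 2) := by
  cases d with
  | zero =>
    have h0 : T 0 = 128 / 25 := by unfold T; norm_num
    rw [h0, Real.log_pow]
    have h1 : Real.log (128 / 25) = 7 * Real.log 2 - 2 * Real.log 5 := by
      rw [Real.log_div (by norm_num) (by norm_num), show (128 : ℝ) = 2 ^ 7 by norm_num,
        show (25 : ℝ) = 5 ^ 2 by norm_num, Real.log_pow, Real.log_pow]
      push_cast
      ring
    rw [h1]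
    have h2 := Real.log_two_gt_d9
    have h5 := log5_le
    simp only [eq]
    push_cast
    have h6 : ((L2l : ℚ) : ℝ) ≤ Real.log 2 := by
      unfold L2l; push_cast; linarith
    nlinarith
  | succ d =>
    rw [T_succ]
    have hd : (0 : ℝ) < (d : ℝ) + 1 := by positivity
    have h1 := log_le_ub (d + 1) (Nat.succ_pos d)
    have h2 : Real.log ((1 / ((d : ℝ) + 1)) ^ 2) = -2 * Real.log ((d + 1 : ℕ) : ℝ) := by
      rw [Real.log_pow, one_div, Real.log_inv]
      push_cast
      ring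
    rw [h2]
    simp only [eq]
    push_cast
    have h3 : (1 / ((d : ℝ) + 1)) ^ 2 * (-2 * Real.log ((d : ℝ) + 1)) =
        -2 * Real.log ((d : ℝ) + 1) / (((d : ℝ) + 1) * ((d : ℝ) + 1)) := by
      field_simp
    rw [h3]
    refine div_le_div_of_nonneg_right ?_ (by positivity)
    push_cast at h1
    linarith

lemma esum_eq (n : ℕ) : ((esum n : ℚ) : ℝ) = ∑ i ∈ range n, ((eq (dd i) : ℚ) : ℝ) := by
  induction n with
  | zero => simp [esum]
  | succ n ih => rw [Finset.sum_range_succ, esum]; push_cast; rw [ih]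

lemma E_ge : 82.0328 ≤ ∑ k ∈ Icc (-((150 : ℕ) : ℤ)) ((150 : ℕ) : ℤ),
    T k.natAbs ^ 2 * Real.log (T k.natAbs ^ 2) := by
  rw [full (fun d => T d ^ 2 * Real.log (T d ^ 2))]
  have h1 : ((esum 301 : ℚ) : ℝ) ≤ ∑ i ∈ range 301, T (dd i) ^ 2 * Real.log (T (dd i) ^ 2) := by
    rw [esum_eq]
    exact Finset.sum_le_sum fun i _ => eq_le (dd i)
  have h2 : (((820328 / 10000 : ℚ)) : ℝ) ≤ ((esum 301 : ℚ) : ℝ) := by exact_mod_cast esum_ge
  push_cast at h2
  linarith

lemma final_num : Real.log 29.49098 - Real.log (2 * Real.pi) - 105.7676 / 29.49098 <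
    -(1 / 2) * Real.log 59 := by
  have hpi := Real.pi_gt_d6
  have hpi0 : (0 : ℝ) < 2 * Real.pi := by positivity
  have h1 : Real.log (29.49098 ^ 2 * 59 / (2 * Real.pi) ^ 2) =
      2 * Real.log 29.49098 + Real.log 59 - 2 * Real.log (2 * Real.pi) := by
    rw [Real.log_div (by positivity) (by positivity), Real.log_mul (by positivity) (by norm_num),
      Real.log_pow, Real.log_pow]
    push_cast
    ring
  have h2 : (29.49098 : ℝ) ^ 2 * 59 / (2 * Real.pi) ^ 2 ≤ 1299.8 := by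
    rw [div_le_iff₀ (by positivity)]
    have h3 : (2 * 3.141592 : ℝ) ^ 2 ≤ (2 * Real.pi) ^ 2 :=
      pow_le_pow_left₀ (by norm_num) (by linarith) 2
    nlinarith
  have h3 := Real.log_le_log (by positivity) h2
  have h4 : Real.log 1299.8 = 4 * Real.log 2 + 4 * Real.log 3 + Real.log (1299.8 / 1296) := by
    rw [show (1299.8 : ℝ) = 2 ^ 4 * 3 ^ 4 * (1299.8 / 1296) by norm_num,
      Real.log_mul (by positivity) (by positivity), Real.log_mul (by positivity) (by positivity),
      Real.log_pow, Real.log_pow]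
    norm_num
  have h5 := Real.log_le_sub_one_of_pos (show (0 : ℝ) < 1299.8 / 1296 by norm_num)
  have h6 := log3_le
  have h7 := Real.log_two_lt_d9
  unfold L3 L2 at h6
  push_cast at h6
  rw [h1, h4] at h3
  have h8 : (105.7676 : ℝ) / 29.49098 > 3.58643 := by norm_num
  have h9 : (1299.8 / 1296 - 1 : ℝ) < 0.0029322 := by norm_num
  norm_num at h6
  linarith

theorem num : S_num := by
  refine ⟨150, fun d => T d / √nn, fun k => div_pos (T_pos k) (Real.sqrt_pos.2 nn_pos), ?_, ?_⟩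
  · have h : ∀ k : ℤ, (T k.natAbs / √nn) ^ 2 = T k.natAbs ^ 2 / nn := fun k => by
      rw [div_pow, Real.sq_sqrt nn_pos.le]
    simp only [h]
    rw [← Finset.sum_div]
    exact div_self nn_pos.ne'
  · have hsq : √nn * √nn = nn := Real.mul_self_sqrt nn_pos.le
    have hc : ∀ j : ℕ, cc 150 (fun d => T d / √nn) j = Cc j / nn := by
      intro j
      unfold cc Cc
      rw [Finset.sum_div]
      refine Finset.sum_congr rfl fun k _ => ?_
      rw [div_mul_div_comm, hsq]
    have h1 : ∑ j ∈ Icc 1 (2 * 150), cc 150 (fun d => T d / √nn) j / j =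
        (∑ j ∈ Icc 1 300, Cc j / j) / nn := by
      rw [Finset.sum_div]
      refine Finset.sum_congr rfl fun j _ => ?_
      rw [hc]
      ring
    have h : ∀ k : ℤ, (T k.natAbs / √nn) ^ 2 = T k.natAbs ^ 2 / nn := fun k => by
      rw [div_pow, Real.sq_sqrt nn_pos.le]
    have h2 : ∑ k ∈ Icc (-((150 : ℕ) : ℤ)) ((150 : ℕ) : ℤ),
        (T k.natAbs / √nn) ^ 2 * Real.log ((T k.natAbs / √nn) ^ 2) =
        (∑ k ∈ Icc (-((150 : ℕ) : ℤ)) ((150 : ℕ) : ℤ),
          T k.natAbs ^ 2 * Real.log (T k.natAbs ^ 2)) / nn - Real.log nn := by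
      have h3 : ∀ k : ℤ, (T k.natAbs / √nn) ^ 2 * Real.log ((T k.natAbs / √nn) ^ 2) =
          T k.natAbs ^ 2 * Real.log (T k.natAbs ^ 2) / nn - T k.natAbs ^ 2 * (Real.log nn / nn) := by
        intro k
        rw [h, Real.log_div (pow_pos (T_pos _) 2).ne' nn_pos.ne']
        ring
      simp only [h3]
      rw [Finset.sum_sub_distrib, ← Finset.sum_div, ← Finset.sum_mul]
      congr 1
      change nn * (Real.log nn / nn) = Real.log nn
      field_simp [nn_pos.ne']
    unfold FF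
    simp only []
    rw [h1, h2]
    have hC := C_ge
    have hE := E_ge
    set C := ∑ j ∈ Icc 1 300, Cc j / j
    set E := ∑ k ∈ Icc (-((150 : ℕ) : ℤ)) ((150 : ℕ) : ℤ),
          T k.natAbs ^ 2 * Real.log (T k.natAbs ^ 2)
    have h4 : 105.7676 / 29.49098 ≤ C / nn + E / nn := by
      rw [← add_div]
      have h5 : (105.7676 : ℝ) / 29.49098 ≤ 105.7676 / nn :=
        div_le_div_of_nonneg_left (by norm_num) nn_pos nn_le
      refine h5.trans (div_le_div_of_nonneg_right (by linarith) nn_pos.le)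
    have h5 := Real.log_le_log nn_pos nn_le
    have h6 := final_num
    linarith

end Pool.Agent.W308.PLN
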