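import Pool.Agent.W9.PL.Defs

set_option autoImplicit false

/-!
Numerical certificate for the state with eigenvalues `1 / k` (helper308).
-/

open Finset

namespace Pool.Agent.W308.PLN

open Pool.Agent.W9.PL

/-! ### integer arithmetic -/

/-- lower bounds of `10 ^ 9 * T d` -/
def wn : ℕ → ℕ
  | 0 => 5120000000
  | (d + 1) => 1000000000 / (d + 1)

/-- distance to the centre -/
def dd (i : ℕ) : ℕ := (i - 150) + (150 - i)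

def inner (j : ℕ) : ℕ → ℕ
  | 0 => 0
  | (n + 1) => inner j n + wn (dd n) * wn (dd (n + j))

def outer : ℕ → ℕ
  | 0 => 0
  | (m + 1) => outer m + inner (m + 1) (301 - (m + 1)) / (m + 1)

def sq1 : ℕ → ℕ
  | 0 => 0
  | (n + 1) => sq1 n + (wn (dd n) + 1) * (wn (dd n) + 1)

set_option maxRecDepth 100000 in
theorem outer_ge : 23734800000000000000 ≤ outer 300 := by decide +kernel

set_option maxRecDepth 100000 in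
theorem sq1_le : sq1 301 ≤ 29490980000000000000 := by decide +kernel

/-- exponents of `2, 3, 5` in a number near `d` -/
def nodes : List (ℕ × ℕ × ℕ) := [
   (0, 0, 0), (0, 0, 0), (1, 0, 0), (0, 1, 0), (2, 0, 0), (0, 0, 1), (1, 1, 0), (3, 0, 0), (3,
   0, 0), (0, 2, 0), (1, 0, 1), (2, 1, 0), (2, 1, 0), (2, 1, 0), (0, 1, 1), (0, 1, 1), (4, 0,
   0), (1, 2, 0), (1, 2, 0), (2, 0, 1), (2, 0, 1), (2, 0, 1), (3, 1, 0), (3, 1, 0), (3, 1, 0),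
   (0, 0, 2), (0, 3, 0), (0, 3, 0), (0, 3, 0), (1, 1, 1), (1, 1, 1), (5, 0, 0), (5, 0, 0), (5,
   0, 0), (2, 2, 0), (2, 2, 0), (2, 2, 0), (2, 2, 0), (3, 0, 1), (3, 0, 1), (3, 0, 1), (3, 0,
   1), (3, 0, 1), (0, 2, 1), (0, 2, 1), (0, 2, 1), (0, 2, 1), (4, 1, 0), (4, 1, 0), (1, 0, 2),
   (1, 0, 2), (1, 0, 2), (1, 3, 0), (1, 3, 0), (1, 3, 0), (1, 3, 0), (1, 3, 0), (2, 1, 1), (2,
   1, 1), (2, 1, 1), (2, 1, 1), (2, 1, 1), (6, 0, 0), (6, 0, 0), (6, 0, 0), (6, 0, 0), (6, 0,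
   0), (6, 0, 0), (3, 2, 0), (3, 2, 0), (3, 2, 0), (3, 2, 0), (3, 2, 0), (3, 2, 0), (0, 1, 2),
   (0, 1, 2), (0, 1, 2), (0, 1, 2), (4, 0, 1), (4, 0, 1), (4, 0, 1), (0, 4, 0), (0, 4, 0), (0,
   4, 0), (0, 4, 0), (0, 4, 0), (1, 2, 1), (1, 2, 1), (1, 2, 1), (1, 2, 1), (1, 2, 1), (1, 2,
   1), (1, 2, 1), (5, 1, 0), (5, 1, 0), (5, 1, 0), (5, 1, 0), (5, 1, 0), (2, 0, 2), (2, 0, 2),
   (2, 0, 2), (2, 0, 2), (2, 0, 2), (2, 0, 2), (2, 3, 0), (2, 3, 0), (2, 3, 0), (2, 3, 0), (2,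
   3, 0), (2, 3, 0), (2, 3, 0), (2, 3, 0), (2, 3, 0), (2, 3, 0), (3, 1, 1), (3, 1, 1), (3, 1,
   1), (3, 1, 1), (3, 1, 1), (3, 1, 1), (3, 1, 1), (3, 1, 1), (3, 1, 1), (0, 0, 3), (0, 0, 3),
   (0, 0, 3), (0, 0, 3), (7, 0, 0), (7, 0, 0), (7, 0, 0), (7, 0, 0), (7, 0, 0), (0, 3, 1), (0,
   3, 1), (0, 3, 1), (0, 3, 1), (0, 3, 1), (0, 3, 1), (0, 3, 1), (0, 3, 1), (4, 2, 0), (4, 2,
   0), (4, 2, 0), (4, 2, 0), (4, 2, 0), (4, 2, 0), (4, 2, 0), (1, 1, 2), (1, 1, 2), (1, 1, 2),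
   (1, 1, 2)]

def nd (d : ℕ) : ℕ × ℕ × ℕ := nodes.getD d (0, 0, 0)

def ms (d : ℕ) : ℕ := 2 ^ (nd d).1 * 3 ^ (nd d).2.1 * 5 ^ (nd d).2.2

def L2 : ℚ := 6931471808 / 10000000000
def L3 : ℚ := 485 / 306 * L2
def L5 : ℚ := 1493 / 643 * L2
def L2l : ℚ := 6931471803 / 10000000000

/-- upper bound of `log d` -/
def ub (d : ℕ) : ℚ :=
  ((nd d).1 : ℚ) * L2 + ((nd d).2.1 : ℚ) * L3 + ((nd d).2.2 : ℚ) * L5 + ((d : ℚ) / (ms d : ℚ) - 1)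

/-- lower bound of `T d ^ 2 * log (T d ^ 2)` -/
def eq : ℕ → ℚ
  | 0 => 2 * (128 / 25 * (128 / 25)) * (7 * L2l - 2 * L5)
  | (d + 1) => -2 * ub (d + 1) / (((d + 1) * (d + 1) : ℕ) : ℚ)

def esum : ℕ → ℚ
  | 0 => 0
  | (n + 1) => esum n + eq (dd n)

set_option maxRecDepth 100000 in
theorem esum_ge : (820328 / 10000 : ℚ) ≤ esum 301 := by decide +kernel

end Pool.Agent.W308.PLN
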